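import Pool.Agent.Helper37.TW3.Defs

/-!
# Project TW3: the triples for `y² = f(x)`, and the statements of the signs
-/

set_option autoImplicit false

namespace Pool.Agent.TW3

open VC Filter Topology NumberField IsDedekindDomain IntermediateField Pool.Agent.SC Pool.Agent.L
open Pool.Agent.M (OverPl Moves BPl IsZ NN sgn inL0)
open Pool.Agent.HG (Pr nm IsOdd)
open Pool.Agent.TW (OptAt Lvl Rare)
open Pool.Agent.TOW (NX Infp Au)

noncomputable section

section

variable {k K0 E U : Type} [Field k] [Field K0] [Field E] [Field U]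
    [Algebra k K0] [Algebra k E] [Algebra E U] [Algebra K0 U] [Algebra k U]

/-- `b` is a branch place over `x = e`. -/
def VlB (x : K0) (f : Polynomial k) (b : Place E (L0 E K0 (U := U))) (e : E) : Prop :=
  BPl (Polynomial.aeval x f) b ∧ Polynomial.aeval e f = 0 ∧
    b.ring.valuation (inL0 x - algebraMap E _ e) < 1

/-- `b` is a branch place over infinity. -/
def InB (x : K0) (f : Polynomial k) (b : Place E (L0 E K0 (U := U))) : Prop :=
  BPl (Polynomial.aeval x f) b ∧ inL0 x ∉ b.ring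

/-- The triples for the pair infinity, `β`. -/
def TrI (x : K0) (f : Polynomial k) (β : k) (b₁ b₂ : Place E (L0 E K0 (U := U))) (d : E) : Prop :=
  ∃ p q : E, VlB x f b₁ p ∧ VlB x f b₂ q ∧ p ≠ algebraMap k E β ∧ q ≠ algebraMap k E β ∧ p ≠ q ∧
    d ^ 2 = (algebraMap k E β - p) * (algebraMap k E β - q)

/-- The triples for the pair `α`, `β`. -/
def TrF (x : K0) (f : Polynomial k) (α β : k) (b₁ b₂ : Place E (L0 E K0 (U := U))) (d : E) :
    Prop :=
  ∃ p : E, VlB x f b₁ p ∧ InB x f b₂ ∧ p ≠ algebraMap k E α ∧ p ≠ algebraMap k E β ∧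
    d ^ 2 = (algebraMap k E α - p) * (algebraMap k E β - p)

end

/-- BLOCK W6a, first half: the signs at infinity and at `β`. -/
def StmtSGI : Prop :=
  ∀ (k K0 E U : Type) [Field k] [NumberField k] [Field K0] [Field E] [Field U] [Algebra k K0]
    [Algebra k E] [Algebra E U] [Algebra K0 U] [Algebra k U] [IsScalarTower k E U]
    [IsScalarTower k K0 U] (x : K0) (f : Polynomial k) (r : U), Pool.Agent.TOWS.Hyp E x f r →
    ∀ β : k, ∀ a b : Place E (L0 E K0 (U := U)), InB x f a → VlB x f b (algebraMap k E β) →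
    ∀ (c : k) (Φ : (E ≃ₐ[k] E) →* (U ≃+* U)), c ≠ 0 → Act (K0 := K0) r c Φ →
    ∀ (σ : E ≃ₐ[k] E) (b₁ b₂ : Place E (L0 E K0 (U := U))) (d : E), TrI x f β b₁ b₂ d →
    Moves (Φ σ) _ b₁ b₁ → Moves (Φ σ) _ b₂ b₂ →
    σ d = -d → ∀ z : U, IsZ b₁ b₂ z → ∀ P P' : Place E (NN E K0 2 (U := U)), OverPl a P →
    OverPl b P' → Moves (Φ σ) _ P P → Moves (Φ σ) _ P' P' → sgn (Φ σ) P z ≠ sgn (Φ σ) P' z

/-- BLOCK W6a, second half: the signs at `α` and at `β`. -/
def StmtSGF : Prop :=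
  ∀ (k K0 E U : Type) [Field k] [NumberField k] [Field K0] [Field E] [Field U] [Algebra k K0]
    [Algebra k E] [Algebra E U] [Algebra K0 U] [Algebra k U] [IsScalarTower k E U]
    [IsScalarTower k K0 U] (x : K0) (f : Polynomial k) (r : U), Pool.Agent.TOWS.Hyp E x f r →
    ∀ α β : k, α ≠ β → ∀ a b : Place E (L0 E K0 (U := U)), VlB x f a (algebraMap k E α) →
    VlB x f b (algebraMap k E β) →
    ∀ (c : k) (Φ : (E ≃ₐ[k] E) →* (U ≃+* U)), c ≠ 0 → Act (K0 := K0) r c Φ →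
    ∀ (σ : E ≃ₐ[k] E) (b₁ b₂ : Place E (L0 E K0 (U := U))) (d : E), TrF x f α β b₁ b₂ d →
    Moves (Φ σ) _ b₁ b₁ → Moves (Φ σ) _ b₂ b₂ →
    σ d = -d → ∀ z : U, IsZ b₁ b₂ z → ∀ P P' : Place E (NN E K0 2 (U := U)), OverPl a P →
    OverPl b P' → Moves (Φ σ) _ P P → Moves (Φ σ) _ P' P' → sgn (Φ σ) P z ≠ sgn (Φ σ) P' z

end

end Pool.Agent.TW3
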