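import Pool.Agent.Helper32.TW3.MRb

/-!
# Project TW3, block W6: `ManyRat` for the line
-/

set_option autoImplicit false

namespace Pool.Agent.TW3

open VC Filter Topology NumberField IsDedekindDomain IntermediateField Pool.Agent.SC Pool.Agent.L
open Pool.Agent.M (OverPl Moves BPl IsZ NN sgn inL0 Cg)
open Pool.Agent.HG (Pr nm IsOdd)
open Pool.Agent.TW (OptAt Lvl Rare)
open Pool.Agent.TOW (NX Infp Au)

section

variable {k K0 E U : Type} [Field k] [NumberField k] [Field K0] [Field E] [Field U]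
  [Algebra k K0] [Algebra k E] [Algebra E U] [Algebra K0 U] [Algebra k U] [IsScalarTower k E U]
  [IsScalarTower k K0 U] {x : K0} {f : Polynomial k} {r : U}

/-- the orbit of odd length, for infinity and `β` -/
theorem orbI32 (H : Pool.Agent.TOWS.Hyp E x f r)
    (hND : ND k E f) {β : k} (hβ : Polynomial.eval β f = 0) {a b : Place E (L0 E K0 (U := U))}
    (ha : InB x f a) (hb : VlB x f b (algebraMap k E β)) {c : k} {Φ : (E ≃ₐ[k] E) →* (U ≃+* U)}
    (hc : c ≠ 0) (hΦ : Act (K0 := K0) r c Φ) (σ : E ≃ₐ[k] E) :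
    ∃ b₃ : Place E (L0 E K0 (U := U)), BPl (Polynomial.aeval x f) b₃ ∧
      b₃ ≠ a ∧ b₃ ≠ b ∧ ∃ n : ℕ, Odd n ∧ Moves (Φ (σ ^ n)) _ b₃ b₃ := by
  have hcl : IsAlgClosed E := H.geo.clE
  have halg : Algebra.IsAlgebraic k E := H.geo.algE
  obtain ⟨p, hp, hpb, hodd⟩ := hND.odd β hβ
  obtain ⟨p', hp', n, hn, hσ⟩ := odd_orbit99 p hodd σ
  have hdvd : minpoly k p ∣ f := minpoly.dvd k p hp
  have hp'f : Polynomial.aeval p' f = 0 := by
    obtain ⟨g, hg⟩ := hdvd
    rw [hg, map_mul, hp', zero_mul]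
  obtain ⟨b₃, h3⟩ := exists_vlb32 H hp'f
  refine ⟨b₃, h3.1, (ha.ne32 h3).symm, ?_, n, hn, ?_⟩
  · rintro rfl
    have h1 : p' = algebraMap k E β := h3.val_unique32 hb
    rw [h1] at hp'
    have hint : IsIntegral k p := Algebra.IsIntegral.isIntegral p
    have h2 : Polynomial.eval β (minpoly k p) = 0 := by
      rw [Polynomial.aeval_algebraMap_apply, Polynomial.coe_aeval_eq_eval] at hp'
      exact (map_eq_zero_iff _ (algebraMap k E).injective).1 hp'
    have h4 : minpoly k p = Polynomial.X - Polynomial.C β := by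
      have h5 : (Polynomial.X - Polynomial.C β) ∣ minpoly k p :=
        Polynomial.dvd_iff_isRoot.2 h2
      have h6 := (minpoly.irreducible hint).dvd_iff.1 h5
      rcases h6 with h6 | h6
      · exact absurd h6 (Polynomial.irreducible_X_sub_C β).not_isUnit
      · exact Polynomial.eq_of_monic_of_associated (minpoly.monic hint)
          (Polynomial.monic_X_sub_C β) h6
    have h7 := minpoly.aeval k p
    rw [h4, map_sub, Polynomial.aeval_X, Polynomial.aeval_C] at h7
    exact hpb (sub_eq_zero.1 h7)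
  · refine h3.mv32 H hc hΦ _ ?_
    rw [hσ]
    exact h3

end

/-- **BLOCK W6.** -/
theorem mR (hSgInf : StmtSgInf) (hSgFin : StmtSgFin) : StmtMR := by
  intro k K0 E U _ _ _ _ _ _ _ _ _ _ _ _ x f r H hND
  classical
  have hcl : IsAlgClosed E := H.geo.clE
  have halg : Algebra.IsAlgebraic k E := H.geo.algE
  have hclo : IsAlgClosure k E := ⟨hcl, halg⟩
  have hnorm : Normal k E := IsAlgClosure.normal k E
  have hgal : IsGalois k E := ⟨⟩
  have hnr := Pool.Agent.M.nR k K0 E U _ r H.geo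
  have hfin := hnr.2.1
  obtain ⟨b₀, hI0⟩ := exists_inb32 H
  obtain ⟨R, hRdef⟩ : ∃ R : Finset (Place E (L0 E K0 (U := U))), R = hfin.toFinset.filter
    (fun b => InB x f b ∨ ∃ α : k, VlB x f b (algebraMap k E α)) := ⟨_, rfl⟩
  have hR : ∀ b, b ∈ R ↔ InB x f b ∨ ∃ α : k, VlB x f b (algebraMap k E α) := by
    intro b
    rw [hRdef, Finset.mem_filter, Set.Finite.mem_toFinset]
    constructor
    · exact fun h => h.2
    · intro h
      refine ⟨?_, h⟩
      rcases h with h | ⟨α, h⟩
      · exact h.1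
      · exact h.1
  have hev : ∀ {α : k} {b : Place E (L0 E K0 (U := U))}, VlB x f b (algebraMap k E α) →
      Polynomial.eval α f = 0 := by
    intro α b h
    have h1 := h.2.1
    rw [Polynomial.aeval_algebraMap_apply, Polynomial.coe_aeval_eq_eval] at h1
    exact (map_eq_zero_iff _ (algebraMap k E).injective).1 h1
  refine ⟨R, ⟨⟨b₀, (hR b₀).2 (Or.inl hI0)⟩, ?_, ?_, ?_, ?_, ?_, ?_⟩, ?_⟩
  · intro b hb
    rcases (hR b).1 hb with h | ⟨α, h⟩
    · exact h.1
    · exact h.1
  · intro b hb c Φ hc hΦ σ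
    rcases (hR b).1 hb with h | ⟨α, h⟩
    · exact h.mv32 H hc hΦ σ h
    · refine h.mv32 H hc hΦ σ ?_
      rw [σ.commutes]
      exact h
  · intro c Φ hc hΦ b hb hbR
    rcases br_cases32 H hb with h | ⟨e, h⟩
    · exact absurd ((hR b).2 (Or.inl h)) hbR
    · have hσ : ∃ σ : E ≃ₐ[k] E, σ e ≠ e := by
        by_contra hcon
        push Not at hcon
        have h1 : e ∈ (⊥ : IntermediateField k E) :=
          (InfiniteGalois.mem_bot_iff_fixed e).2 hcon
        obtain ⟨a, ha⟩ := IntermediateField.mem_bot.1 h1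
        apply hbR
        rw [hR]
        refine Or.inr ⟨a, ?_⟩
        rw [ha]
        exact h
      obtain ⟨σ, hσ⟩ := hσ
      exact ⟨σ, fun hm => hσ ((h.moves32 H hc hΦ σ hm).val_unique32 h)⟩
  · have hf0 : f ≠ 0 := H.sep.ne_zero
    have hch : ∀ β : f.rootSet E, ∃ b : Place E (L0 E K0 (U := U)), VlB x f b (β : E) :=
      fun β => exists_vlb32 H ((Polynomial.mem_rootSet.1 β.2).2)
    choose B hB using hch
    have hinj : Function.Injective B := by
      intro β β' h1
      have h3 := hB β'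
      rw [← h1] at h3
      exact Subtype.ext ((hB β).val_unique32 h3)
    have hcard : Nat.card (f.rootSet E) = f.natDegree := by
      rw [Nat.card_eq_fintype_card]
      exact Polynomial.card_rootSet_eq_natDegree H.sep (IsAlgClosed.splits _)
    have h1 : Set.range B ⊆ {b : Place E (L0 E K0 (U := U)) | BPl (Polynomial.aeval x f) b} := by
      rintro _ ⟨β, rfl⟩
      exact (hB β).1
    have h2 := Set.ncard_le_ncard h1 hfin
    have h3 : (Set.range B).ncard = Nat.card (f.rootSet E) := by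
      rw [← Nat.card_coe_set_eq]
      exact Nat.card_range_of_injective hinj
    rw [h3, hcard] at h2
    rw [← Set.coe_ofPred, Nat.card_coe_set_eq]
    exact H.deg.trans h2
  · intro a ha b hb hab c Φ hc hΦ σ
    rcases (hR a).1 ha with h | ⟨α, h⟩
    · rcases (hR b).1 hb with h' | ⟨β, h'⟩
      · exact absurd (h.unique32 H h') hab
      · exact orbI32 H hND (hev h') h h' hc hΦ σ
    · rcases (hR b).1 hb with h' | ⟨β, h'⟩
      · obtain ⟨b₃, g1, g2, g3, g4⟩ := orbI32 H hND (hev h) h' h hc hΦ σ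
        exact ⟨b₃, g1, g3, g2, g4⟩
      · exact ⟨b₀, hI0.1, hI0.ne32 h, hI0.ne32 h', 1, odd_one, hI0.mv32 H hc hΦ _ hI0⟩
  · intro a ha b hb hab
    rcases (hR a).1 ha with h | ⟨α, h⟩
    · rcases (hR b).1 hb with h' | ⟨β, h'⟩
      · exact absurd (h.unique32 H h') hab
      · exact ⟨_, pairI32 (sGI_of32 hSgInf) H hND (hev h') h h'⟩
    · rcases (hR b).1 hb with h' | ⟨β, h'⟩
      · exact ⟨_, (pairI32 (sGI_of32 hSgInf) H hND (hev h) h' h).symm32⟩
      · refine ⟨_, pairF32 (sGF_of32 hSgFin) H hND (hev h) (hev h') ?_ h h' hI0⟩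
        rintro rfl
        exact hab (h.unique32 H h')
  · intro b hb hx
    rcases (hR b).1 hb with h | ⟨α, h⟩
    · exact absurd hx h.2
    · exact ⟨α, hev h, h.2.2⟩

end Pool.Agent.TW3
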