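import Pool.Agent.Helper32.TW3.Defs
import Pool.Agent.Helper45.TW.SOI3
import Pool.Agent.Helper45.TW.SINF
import Pool.Agent.Helper45.TW.SOne
import Pool.Agent.Helper59.M.NR

/-!
# Project TW3: the branch places of the line
-/

set_option autoImplicit false

namespace Pool.Agent.TW3

open VC Filter Topology NumberField IsDedekindDomain IntermediateField Pool.Agent.SC Pool.Agent.L
open Pool.Agent.M (OverPl Moves BPl IsZ NN sgn inL0 Cg)
open Pool.Agent.HG (Pr nm IsOdd)
open Pool.Agent.TW (OptAt Lvl Rare)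
open Pool.Agent.TOW (NX Infp Au)

section

variable {k K0 E U : Type} [Field k] [NumberField k] [Field K0] [Field E] [Field U]
  [Algebra k K0] [Algebra k E] [Algebra E U] [Algebra K0 U] [Algebra k U] [IsScalarTower k E U]
  [IsScalarTower k K0 U] {x : K0} {f : Polynomial k} {r : U}

theorem VlB.cg32 {b : Place E (L0 E K0 (U := U))} {e : E} (h : VlB x f b e) :
    Cg b.ring (inL0 (E := E) (U := U) x) e := h.2.2

theorem VlB.val_unique32 {b : Place E (L0 E K0 (U := U))} {e e' : E} (h : VlB x f b e)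
    (h' : VlB x f b e') : e = e' := Cg.unique b.algebraMap_mem h.cg32 h'.cg32

theorem VlB.mem32 {b : Place E (L0 E K0 (U := U))} {e : E} (h : VlB x f b e) :
    inL0 (E := E) (U := U) x ∈ b.ring := by
  have h1 : inL0 (E := E) (U := U) x - algebraMap E _ e ∈ b.ring := by
    rw [← ValuationSubring.valuation_le_one_iff]
    exact h.2.2.le
  have h2 := add_mem h1 (b.algebraMap_mem e)
  rwa [sub_add_cancel] at h2

theorem trI32 (H : Pool.Agent.TOWS.Hyp E x f r) (e : E) :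
    Transcendental E (inL0 (E := E) (U := U) x - algebraMap E (L0 E K0 (U := U)) e) := by
  intro h
  apply Pool.Agent.TOWS.trans32 H
  have h1 : IsAlgebraic E (inL0 (E := E) (U := U) x) := by
    have h2 := h.add (isAlgebraic_algebraMap (R := E) (A := L0 E K0 (U := U)) e)
    rwa [sub_add_cancel] at h2
  exact (isAlgebraic_algebraMap_iff (R := E) (A := U)
    (algebraMap (L0 E K0 (U := U)) U).injective).2 h1

theorem VlB.unique32 (H : Pool.Agent.TOWS.Hyp E x f r) {b b' : Place E (L0 E K0 (U := U))} {e : E}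
    (h : VlB x f b e) (h' : VlB x f b' e) : b = b' := by
  have hcl : IsAlgClosed E := H.geo.clE
  obtain ⟨P, -, -, hP⟩ := Pool.Agent.TOW.exists_zero17 _ (trI32 H e) (Pool.Agent.TOWS.gen32 H e)
  have h1 := hP b.ring b.algebraMap_mem (by
    rw [ValuationSubring.mem_nonunits_iff]; exact h.2.2)
  have h2 := hP b'.ring b'.algebraMap_mem (by
    rw [ValuationSubring.mem_nonunits_iff]; exact h'.2.2)
  exact Place.ext (h1.trans h2.symm)

theorem inv_data32 (H : Pool.Agent.TOWS.Hyp E x f r) : inL0 (E := E) (U := U) x ≠ 0 ∧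
    Transcendental E (inL0 (E := E) (U := U) x)⁻¹ ∧
    IntermediateField.adjoin E {(inL0 (E := E) (U := U) x)⁻¹} = ⊤ := by
  have h0 := trI32 H (0 : E)
  have hg := Pool.Agent.TOWS.gen32 H (0 : E)
  rw [map_zero, sub_zero] at h0 hg
  have hne : inL0 (E := E) (U := U) x ≠ 0 := by
    intro h1
    rw [h1] at h0
    exact h0 isAlgebraic_zero
  refine ⟨hne, ?_, ?_⟩
  · intro h1
    have := h1.inv
    rw [inv_inv] at this
    exact h0 this
  · rw [eq_top_iff, ← hg, IntermediateField.adjoin_simple_le_iff]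
    have h1 := inv_mem (IntermediateField.mem_adjoin_simple_self E (inL0 (E := E) (U := U) x)⁻¹)
    rwa [inv_inv] at h1

theorem InB.unique32 (H : Pool.Agent.TOWS.Hyp E x f r) {b b' : Place E (L0 E K0 (U := U))}
    (h : InB x f b) (h' : InB x f b') : b = b' := by
  have hcl : IsAlgClosed E := H.geo.clE
  obtain ⟨-, htr, hgen⟩ := inv_data32 H
  obtain ⟨P, -, -, hP⟩ := Pool.Agent.TOW.exists_zero17 _ htr hgen
  have key : ∀ b : Place E (L0 E K0 (U := U)), InB x f b → b.ring = P.ring := by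
    intro b hb
    refine hP b.ring b.algebraMap_mem ?_
    rw [ValuationSubring.mem_nonunits_iff_or, inv_inv]
    exact Or.inr hb.2
  exact Place.ext ((key b h).trans (key b' h').symm)

theorem exists_inb32 (H : Pool.Agent.TOWS.Hyp E x f r) :
    ∃ b : Place E (L0 E K0 (U := U)), InB x f b := by
  have hcl : IsAlgClosed E := H.geo.clE
  obtain ⟨hne, htr, hgen⟩ := inv_data32 H
  obtain ⟨b₀, hb1, hb2, -⟩ := Pool.Agent.TOW.exists_zero17 _ htr hgen
  refine ⟨b₀, ?_, ?_⟩
  · have h1 : inL0 (E := E) (U := U) (Polynomial.aeval x f) =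
        Polynomial.aeval ((inL0 (E := E) (U := U) x)⁻¹)⁻¹ (f.map (algebraMap k E)) := by
      apply Subtype.ext
      rw [inv_inv]
      have h2 := Polynomial.aeval_algHom_apply (L0 E K0 (U := U)).val (inL0 (E := E) (U := U) x)
        (f.map (algebraMap k E))
      have h3 : ((Polynomial.aeval (inL0 (E := E) (U := U) x) (f.map (algebraMap k E)) :
          L0 E K0 (U := U)) : U) =
          Polynomial.aeval (algebraMap K0 U x) (f.map (algebraMap k E)) := h2.symm
      rw [h3, Polynomial.aeval_map_algebraMap, Polynomial.aeval_algebraMap_apply]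
      rfl
    unfold BPl
    rw [h1, hb2 _ (by rw [Ne, Polynomial.map_eq_zero]; exact H.sep.ne_zero), Polynomial.natDegree_map]
    intro h2
    have h3 : (2 : ℤ) ∣ (f.natDegree : ℤ) := by
      rw [← dvd_neg]
      exact h2
    have h4 : 2 ∣ f.natDegree := by exact_mod_cast h3
    exact (Nat.not_even_iff_odd.2 H.odd) (even_iff_two_dvd.2 h4)
  · rw [ValuationSubring.mem_nonunits_iff_or, inv_inv] at hb1
    rcases hb1 with h | h
    · exact absurd (inv_eq_zero.1 h) hne
    · exact h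

theorem InB.ne32 {b b' : Place E (L0 E K0 (U := U))} {e : E} (h : InB x f b)
    (h' : VlB x f b' e) : b ≠ b' := by
  rintro rfl
  exact h.2 h'.mem32

/-! ## The action -/

variable {c : k} {Φ : (E ≃ₐ[k] E) →* (U ≃+* U)}

theorem xm32 : algebraMap K0 U x ∈ L0 E K0 (U := U) := subset_adjoin _ _ ⟨x, rfl⟩

theorem VlB.moves32 (H : Pool.Agent.TOWS.Hyp E x f r) (hc : c ≠ 0) (hΦ : Act (K0 := K0) r c Φ)
    (g : E ≃ₐ[k] E) {b b' : Place E (L0 E K0 (U := U))} {e : E} (h : VlB x f b e)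
    (hm : Moves (Φ g) _ b b') : VlB x f b' (g e) := by
  refine ⟨((Pool.Agent.M.nR k K0 E U _ r H.geo).2.2 c Φ hc hΦ).2.1 g b b' hm |>.1 h.1, ?_, ?_⟩
  · have h1 : Polynomial.aeval (g e) f = g (Polynomial.aeval e f) :=
      Polynomial.aeval_algHom_apply g.toAlgHom e f
    rw [h1, h.2.1, map_zero]
  · have hTx : Φ g (algebraMap K0 U x) = algebraMap K0 U x := hΦ.fixK g x
    have hTx' : Φ g (algebraMap K0 U x) ∈ L0 E K0 (U := U) := by rw [hTx]; exact xm32
    have h1 : Cg b.ring (⟨algebraMap K0 U x, xm32⟩ : L0 E K0 (U := U)) e := h.cg32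
    have h2 := (Pool.Agent.M.Moves.cg (σ := g.toRingEquiv) (fun e => hΦ.const g e) hm xm32 hTx').1 h1
    have e2 : (⟨Φ g (algebraMap K0 U x), hTx'⟩ : L0 E K0 (U := U)) = ⟨algebraMap K0 U x, xm32⟩ :=
      Subtype.ext hTx
    rw [e2] at h2
    exact h2

theorem InB.moves32 (H : Pool.Agent.TOWS.Hyp E x f r) (hc : c ≠ 0) (hΦ : Act (K0 := K0) r c Φ)
    (g : E ≃ₐ[k] E) {b b' : Place E (L0 E K0 (U := U))} (h : InB x f b)
    (hm : Moves (Φ g) _ b b') : InB x f b' := by
  refine ⟨((Pool.Agent.M.nR k K0 E U _ r H.geo).2.2 c Φ hc hΦ).2.1 g b b' hm |>.1 h.1, ?_⟩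
  have hTx : Φ g (algebraMap K0 U x) = algebraMap K0 U x := hΦ.fixK g x
  have hTx' : Φ g (algebraMap K0 U x) ∈ L0 E K0 (U := U) := by rw [hTx]; exact xm32
  intro hmem
  apply h.2
  refine (hm _ xm32 hTx').2 ?_
  have e2 : (⟨Φ g (algebraMap K0 U x), hTx'⟩ : L0 E K0 (U := U)) = ⟨algebraMap K0 U x, xm32⟩ :=
    Subtype.ext hTx
  rw [e2]
  exact hmem

theorem VlB.mv32 (H : Pool.Agent.TOWS.Hyp E x f r) (hc : c ≠ 0) (hΦ : Act (K0 := K0) r c Φ)
    (g : E ≃ₐ[k] E) {b b' : Place E (L0 E K0 (U := U))} {e : E} (h : VlB x f b e)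
    (h' : VlB x f b' (g e)) : Moves (Φ g) _ b b' := by
  obtain ⟨b'', hb'', -⟩ := ((Pool.Agent.M.nR k K0 E U _ r H.geo).2.2 c Φ hc hΦ).1 g b
  rw [h'.unique32 H (h.moves32 H hc hΦ g hb'')]
  exact hb''

theorem InB.mv32 (H : Pool.Agent.TOWS.Hyp E x f r) (hc : c ≠ 0) (hΦ : Act (K0 := K0) r c Φ)
    (g : E ≃ₐ[k] E) {b b' : Place E (L0 E K0 (U := U))} (h : InB x f b)
    (h' : InB x f b') : Moves (Φ g) _ b b' := by
  obtain ⟨b'', hb'', -⟩ := ((Pool.Agent.M.nR k K0 E U _ r H.geo).2.2 c Φ hc hΦ).1 g b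
  rw [h'.unique32 H (h.moves32 H hc hΦ g hb'')]
  exact hb''

/-! ## Existence -/

theorem exists_vlb32 (H : Pool.Agent.TOWS.Hyp E x f r) {e : E} (he : Polynomial.aeval e f = 0) :
    ∃ b : Place E (L0 E K0 (U := U)), VlB x f b e := by
  obtain ⟨b, h1, h2⟩ := (Pool.Agent.TOWS.oI3 k K0 E U x f r H).2 e he
  exact ⟨b, h1, he, h2⟩

theorem br_cases32 (H : Pool.Agent.TOWS.Hyp E x f r) {b : Place E (L0 E K0 (U := U))}
    (hb : BPl (Polynomial.aeval x f) b) : InB x f b ∨ ∃ e : E, VlB x f b e := by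
  by_cases hx : inL0 (E := E) (U := U) x ∈ b.ring
  · obtain ⟨e, h1, h2⟩ := (Pool.Agent.TOWS.oI3 k K0 E U x f r H).1 b hb hx
    exact Or.inr ⟨e, hb, h1, h2⟩
  · exact Or.inl ⟨hb, hx⟩

end

end Pool.Agent.TW3
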