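import Pool.Agent.Helper32.TW3.MRa
import Pool.Agent.Helper28.TW3.SGDefs
import Pool.Agent.Helper99.TW3.GalE

/-!
# Project TW3: `PairC` for the line
-/

set_option autoImplicit false

namespace Pool.Agent.TW3

open VC Filter Topology NumberField IsDedekindDomain IntermediateField Pool.Agent.SC Pool.Agent.L
open Pool.Agent.M (OverPl Moves BPl IsZ NN sgn inL0 Cg)
open Pool.Agent.HG (Pr nm IsOdd)
open Pool.Agent.TW (OptAt Lvl Rare)
open Pool.Agent.TOW (NX Infp Au)

theorem sGI_of32 (h : StmtSgInf) : StmtSGI := by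
  intro k K0 E U _ _ _ _ _ _ _ _ _ _ _ _ x f r H β a b ha hb c Φ hc hΦ σ b₁ b₂ d hT
  refine h k K0 E U x f r H (algebraMap k E β) a b ha.2 hb.2.2 c Φ hc hΦ σ b₁ b₂ d ?_
  obtain ⟨p, q, h1, h2, h3, h4, h5, h6⟩ := hT
  exact ⟨p, q, h1.2.1, h2.2.1, h5, h3, h4, h1.2.2, h2.2.2, h6⟩

theorem sGF_of32 (h : StmtSgFin) : StmtSGF := by
  intro k K0 E U _ _ _ _ _ _ _ _ _ _ _ _ x f r H α β hne a b ha hb c Φ hc hΦ σ b₁ b₂ d hT
  refine h k K0 E U x f r H (algebraMap k E α) (algebraMap k E β) a b ha.2.2 hb.2.2 c Φ hc hΦ σ b₁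
    b₂ d ?_
  obtain ⟨p, h1, h2, h3, h4, h6⟩ := hT
  exact ⟨p, h1.2.1, h3, h4, h1.2.2, h2.2, h6⟩

section

variable {k K0 E U : Type} [Field k] [NumberField k] [Field K0] [Field E] [Field U]
  [Algebra k K0] [Algebra k E] [Algebra E U] [Algebra K0 U] [Algebra k U]

theorem PairC.symm32 {h : K0} {r : U} {a b : Place E (L0 E K0 (U := U))}
    {T : Place E (L0 E K0 (U := U)) → Place E (L0 E K0 (U := U)) → E → Prop}
    (P : PairC (k := k) h r a b T) : PairC (k := k) h r b a T where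
  br := fun b₁ b₂ d hT => by
    obtain ⟨h1, h2, h3, h4, h5, h6, h7, h8⟩ := P.br b₁ b₂ d hT
    exact ⟨h1, h2, h3, h4, h6, h5, h8, h7⟩
  conj := P.conj
  ex := P.ex
  sg := fun c Φ hc hΦ σ b₁ b₂ d hT h1 h2 h3 z hz Q Q' hQ hQ' hm hm' =>
    (P.sg c Φ hc hΦ σ b₁ b₂ d hT h1 h2 h3 z hz Q' Q hQ' hQ hm' hm).symm

variable [IsScalarTower k E U] [IsScalarTower k K0 U] {x : K0} {f : Polynomial k} {r : U}

theorem pairI32 (hSGI : StmtSGI) (H : Pool.Agent.TOWS.Hyp E x f r)
    (hND : ND k E f) {β : k} (hβ : Polynomial.eval β f = 0) {a b : Place E (L0 E K0 (U := U))}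
    (ha : InB x f a) (hb : VlB x f b (algebraMap k E β)) :
    PairC (k := k) (Polynomial.aeval x f) r a b (TrI x f β) where
  br := by
    rintro b₁ b₂ d ⟨p, q, h1, h2, h3, h4, h5, h6⟩
    refine ⟨?_, h1.1, h2.1, ?_, (ha.ne32 h1).symm, ?_, (ha.ne32 h2).symm, ?_⟩
    · rintro rfl
      rw [zero_pow two_ne_zero] at h6
      rcases mul_eq_zero.1 h6.symm with h | h
      · exact h3 (sub_eq_zero.1 h).symm
      · exact h4 (sub_eq_zero.1 h).symm
    · rintro rfl
      exact h5 (h1.val_unique32 h2)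
    · rintro rfl
      exact h3 (h1.val_unique32 hb)
    · rintro rfl
      exact h4 (h2.val_unique32 hb)
  conj := by
    rintro c Φ hc hΦ g b₁ b₂ b₁' b₂' d ⟨p, q, h1, h2, h3, h4, h5, h6⟩ hm1 hm2
    refine ⟨g p, g q, h1.moves32 H hc hΦ g hm1, h2.moves32 H hc hΦ g hm2, ?_, ?_, ?_, ?_⟩
    · intro h
      rw [← g.commutes β] at h
      exact h3 (g.injective h)
    · intro h
      rw [← g.commutes β] at h
      exact h4 (g.injective h)
    · exact fun h => h5 (g.injective h)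
    · rw [← map_pow, h6, map_mul, map_sub, map_sub, g.commutes]
  ex := by
    have hcl : IsAlgClosed E := H.geo.clE
    have halg : Algebra.IsAlgebraic k E := H.geo.algE
    obtain ⟨p, q, hp, hq, hpb, hqb, hpq, hn⟩ := hND.one β hβ
    obtain ⟨b₁, h1⟩ := exists_vlb32 H hp
    obtain ⟨b₂, h2⟩ := exists_vlb32 H hq
    obtain ⟨d, hd⟩ := IsAlgClosed.exists_pow_nat_eq
      ((algebraMap k E β - p) * (algebraMap k E β - q)) two_pos
    have hmem : ((algebraMap k E β - p) * (algebraMap k E β - q)) ∈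
        IntermediateField.adjoin k {p, q} := by
      refine mul_mem (sub_mem (IntermediateField.algebraMap_mem _ β) ?_)
        (sub_mem (IntermediateField.algebraMap_mem _ β) ?_)
      · exact IntermediateField.subset_adjoin _ _ (Set.mem_insert _ _)
      · exact IntermediateField.subset_adjoin _ _ (Set.mem_insert_of_mem _ rfl)
    obtain ⟨σ, hσ, hσd⟩ := exists_neg99 {p, q} _ d hd hmem hn
    refine ⟨b₁, b₂, d, ⟨p, q, h1, h2, hpb, hqb, hpq, hd⟩, σ, hσd, fun c Φ hc hΦ => ⟨?_, ?_⟩⟩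
    · refine h1.mv32 H hc hΦ σ ?_
      rw [hσ p (Set.mem_insert _ _)]
      exact h1
    · refine h2.mv32 H hc hΦ σ ?_
      rw [hσ q (Set.mem_insert_of_mem _ rfl)]
      exact h2
  sg := fun c Φ hc hΦ σ b₁ b₂ d hT h1 h2 h3 z hz P P' hP hP' hm hm' =>
    hSGI k K0 E U x f r H β a b ha hb c Φ hc hΦ σ b₁ b₂ d hT h1 h2 h3 z hz P P' hP hP' hm hm'

theorem pairF32 (hSGF : StmtSGF) (H : Pool.Agent.TOWS.Hyp E x f r)
    (hND : ND k E f) {α β : k} (hα : Polynomial.eval α f = 0) (hβ : Polynomial.eval β f = 0)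
    (hne : α ≠ β) {a b o : Place E (L0 E K0 (U := U))}
    (ha : VlB x f a (algebraMap k E α)) (hb : VlB x f b (algebraMap k E β)) (ho : InB x f o) :
    PairC (k := k) (Polynomial.aeval x f) r a b (TrF x f α β) where
  br := by
    rintro b₁ b₂ d ⟨p, h1, h2, h3, h4, h6⟩
    refine ⟨?_, h1.1, h2.1, (h2.ne32 h1).symm, ?_, ?_, h2.ne32 ha, h2.ne32 hb⟩
    · rintro rfl
      rw [zero_pow two_ne_zero] at h6
      rcases mul_eq_zero.1 h6.symm with h | h
      · exact h3 (sub_eq_zero.1 h).symm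
      · exact h4 (sub_eq_zero.1 h).symm
    · rintro rfl
      exact h3 (h1.val_unique32 ha)
    · rintro rfl
      exact h4 (h1.val_unique32 hb)
  conj := by
    rintro c Φ hc hΦ g b₁ b₂ b₁' b₂' d ⟨p, h1, h2, h3, h4, h6⟩ hm1 hm2
    refine ⟨g p, h1.moves32 H hc hΦ g hm1, h2.moves32 H hc hΦ g hm2, ?_, ?_, ?_⟩
    · intro h
      rw [← g.commutes α] at h
      exact h3 (g.injective h)
    · intro h
      rw [← g.commutes β] at h
      exact h4 (g.injective h)
    · rw [← map_pow, h6, map_mul, map_sub, map_sub, g.commutes, g.commutes]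
  ex := by
    have hcl : IsAlgClosed E := H.geo.clE
    have halg : Algebra.IsAlgebraic k E := H.geo.algE
    obtain ⟨p, hp, hpa, hpb, hn⟩ := hND.two α β hα hβ hne
    obtain ⟨b₁, h1⟩ := exists_vlb32 H hp
    obtain ⟨d, hd⟩ := IsAlgClosed.exists_pow_nat_eq
      ((algebraMap k E α - p) * (algebraMap k E β - p)) two_pos
    have hmem : ((algebraMap k E α - p) * (algebraMap k E β - p)) ∈
        IntermediateField.adjoin k {p} := by
      refine mul_mem (sub_mem (IntermediateField.algebraMap_mem _ α) ?_)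
        (sub_mem (IntermediateField.algebraMap_mem _ β) ?_)
      · exact IntermediateField.subset_adjoin _ _ (Set.mem_singleton _)
      · exact IntermediateField.subset_adjoin _ _ (Set.mem_singleton _)
    obtain ⟨σ, hσ, hσd⟩ := exists_neg99 {p} _ d hd hmem hn
    refine ⟨b₁, o, d, ⟨p, h1, ho, hpa, hpb, hd⟩, σ, hσd, fun c Φ hc hΦ => ⟨?_, ?_⟩⟩
    · refine h1.mv32 H hc hΦ σ ?_
      rw [hσ p (Set.mem_singleton _)]
      exact h1
    · exact ho.mv32 H hc hΦ σ ho
  sg := fun c Φ hc hΦ σ b₁ b₂ d hT h1 h2 h3 z hz P P' hP hP' hm hm' =>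
    hSGF k K0 E U x f r H α β hne a b ha hb c Φ hc hΦ σ b₁ b₂ d hT h1 h2 h3 z hz P P' hP hP' hm hm'

end

end Pool.Agent.TW3
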